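import Pool.Agent.H97.Cube2

set_option autoImplicit false

namespace Pool.Agent.Results.MP_041491_an.Sqrt3

open Pool.Agent.H97.Cube

theorem result : ∀ C : ℝ, 0 < C → Adm 1 2 C → Real.sqrt 3 ≤ C := by
  intro C hC h
  have := lower le_rfl one_lt_two hC h
  norm_num at this
  exact this

end Pool.Agent.Results.MP_041491_an.Sqrt3
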